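import Pool.Agent.Helper92.FR.GoalsA

/-!
# FR, packet INT: a full-dimensional slice has a point with a good margin
-/

set_option autoImplicit false

namespace Pool.Agent.Helper7.FR

open MeasureTheory Pool.Agent.Helper92.FR

/-- A polyhedron given by integer inequalities. -/
def Ph {N : ℕ} {ι : Type} (a : ι → Fin N → ℤ) (b : ι → ℤ) : Set (Fin N → ℝ) :=
  {x | ∀ k, (b k : ℝ) ≤ ∑ j, (a k j : ℝ) * x j}

/-- The rows of the tight inequalities at an extreme point span. -/
theorem span_tight {N : ℕ} {ι : Type} [Finite ι] (a : ι → Fin N → ℤ) (b : ι → ℤ)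
    (v : Fin N → ℝ) (hv : v ∈ (Ph a b).extremePoints ℝ) :
    Submodule.span ℝ {w : Fin N → ℝ | ∃ k, (b k : ℝ) = ∑ j, (a k j : ℝ) * v j ∧
      w = fun j => (a k j : ℝ)} = ⊤ := by
  by_contra hne
  obtain ⟨f, hf0, hf⟩ := Submodule.exists_le_ker_of_lt_top _ (lt_top_iff_ne_top.2 hne)
  set u : Fin N → ℝ := fun j => f (Pi.single j 1) with hu
  have hfu : ∀ w : Fin N → ℝ, f w = ∑ j, w j * u j := by
    intro w
    conv_lhs => rw [pi_eq_sum_univ' w]
    rw [map_sum]
    apply Finset.sum_congr rfl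
    intro j _
    rw [map_smul, smul_eq_mul, hu]
  have hune : u ≠ 0 := by
    intro h0
    apply hf0
    ext w
    simp [hfu, h0]
  have hT : ∀ k, (b k : ℝ) = ∑ j, (a k j : ℝ) * v j → ∑ j, (a k j : ℝ) * u j = 0 := by
    intro k hk
    rw [← hfu]
    exact hf (Submodule.subset_span ⟨k, hk, rfl⟩)
  have hev : ∀ᶠ s : ℝ in nhds 0, ∀ k, (b k : ℝ) ≠ ∑ j, (a k j : ℝ) * v j →
      (b k : ℝ) < ∑ j, (a k j : ℝ) * (v j + s * u j) := by
    rw [Filter.eventually_all]
    intro k
    by_cases hk : (b k : ℝ) = ∑ j, (a k j : ℝ) * v j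
    · exact Filter.Eventually.of_forall fun s h => absurd hk h
    · have h1 : (b k : ℝ) < ∑ j, (a k j : ℝ) * v j := lt_of_le_of_ne (hv.1 k) hk
      have h2 : Continuous fun s : ℝ => ∑ j, (a k j : ℝ) * (v j + s * u j) := by fun_prop
      have h3 := h2.tendsto 0
      simp only [zero_mul, add_zero] at h3
      exact (h3.eventually_const_lt h1).mono fun s hs _ => hs
  obtain ⟨ε, hε, hball⟩ := Metric.eventually_nhds_iff.1 hev
  have key : ∀ s : ℝ, |s| < ε → (fun j => v j + s * u j) ∈ Ph a b := by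
    intro s hs k
    by_cases hk : (b k : ℝ) = ∑ j, (a k j : ℝ) * v j
    · have h1 : ∑ j, (a k j : ℝ) * (v j + s * u j) = ∑ j, (a k j : ℝ) * v j := by
        have h2 : ∑ j, (a k j : ℝ) * (v j + s * u j) =
            ∑ j, (a k j : ℝ) * v j + s * ∑ j, (a k j : ℝ) * u j := by
          rw [Finset.mul_sum, ← Finset.sum_add_distrib]
          apply Finset.sum_congr rfl
          intro j _
          ring
        rw [h2, hT k hk, mul_zero, add_zero]
      rw [h1, hk]
    · exact (hball (y := s) (by simpa [Real.dist_eq] using hs) k hk).le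
  have m1 := key (ε / 2) (by rw [abs_of_pos (by positivity)]; linarith)
  have m2 := key (-(ε / 2)) (by rw [abs_neg, abs_of_pos (by positivity)]; linarith)
  have hseg : v ∈ openSegment ℝ (fun j => v j + ε / 2 * u j) (fun j => v j + -(ε / 2) * u j) := by
    refine ⟨1 / 2, 1 / 2, by norm_num, by norm_num, by norm_num, ?_⟩
    ext j
    simp only [Pi.add_apply, Pi.smul_apply, smul_eq_mul]
    ring
  have h3 := hv.2 m1 m2 hseg
  apply hune
  ext j
  have h4 := congrFun h3 j
  have h5 : ε / 2 * u j = 0 := by linarith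
  rcases mul_eq_zero.1 h5 with h6 | h6
  · linarith
  · exact h6

/-- From an extreme point to an integer system. -/
theorem int_system {N : ℕ} {ι : Type} [Finite ι] (a : ι → Fin N → ℤ) (b : ι → ℤ)
    (v : Fin N → ℝ) (hv : v ∈ (Ph a b).extremePoints ℝ) :
    ∃ g : Fin N → ι, (∀ i, (b (g i) : ℝ) = ∑ j, (a (g i) j : ℝ) * v j) ∧
      (Matrix.of fun i j => a (g i) j).det ≠ 0 := by
  have hspan := span_tight a b v hv
  obtain ⟨s, hs, hs1, hs2⟩ := exists_linearIndependent ℝ
    {w : Fin N → ℝ | ∃ k, (b k : ℝ) = ∑ j, (a k j : ℝ) * v j ∧ w = fun j => (a k j : ℝ)}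
  rw [hspan] at hs1
  let B : Module.Basis s ℝ (Fin N → ℝ) := Module.Basis.mk hs2 (by
    rw [Subtype.range_coe, hs1])
  let eq := (Pi.basisFun ℝ (Fin N)).indexEquiv B
  have hg : ∀ i : Fin N, ∃ k, (b k : ℝ) = ∑ j, (a k j : ℝ) * v j ∧
      ((eq i : s) : Fin N → ℝ) = fun j => (a k j : ℝ) := fun i => hs (eq i).2
  choose g hg1 hg2 using hg
  refine ⟨g, hg1, ?_⟩
  have hli : LinearIndependent ℝ (fun i : Fin N => ((eq i : s) : Fin N → ℝ)) :=
    hs2.comp _ eq.injective
  have hrow : LinearIndependent ℝ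
      ((Matrix.of fun i j => ((a (g i) j : ℤ) : ℝ)) : Matrix (Fin N) (Fin N) ℝ).row := by
    convert hli using 1
    ext i j
    rw [hg2]
    rfl
  rw [Matrix.linearIndependent_rows_iff_isUnit, Matrix.isUnit_iff_isUnit_det, isUnit_iff_ne_zero]
    at hrow
  intro h0
  apply hrow
  have h1 : (Matrix.of fun i j => ((a (g i) j : ℤ) : ℝ)) =
      (Int.castRingHom ℝ).mapMatrix (Matrix.of fun i j => a (g i) j) := by
    ext i j
    simp
  rw [h1, ← RingHom.map_det, h0, map_zero]

/-- The vertex lemma. -/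
theorem vertex {N : ℕ} {ι : Type} [Finite ι] (a : ι → Fin N → ℤ) (b : ι → ℤ) (B : ℤ)
    (hB : ∀ k j, |a k j| ≤ B) (hc : IsCompact (Ph a b)) (k : ι) (x₀ : Fin N → ℝ)
    (hx₀ : x₀ ∈ Ph a b) (hpos : (b k : ℝ) < ∑ j, (a k j : ℝ) * x₀ j) :
    ∃ v ∈ Ph a b, 1 ≤ ((Nat.factorial N : ℝ) * (B : ℝ) ^ N) *
      ((∑ j, (a k j : ℝ) * v j) - b k) := by
  classical
  let f : (Fin N → ℝ) →L[ℝ] ℝ := ∑ j, (a k j : ℝ) • ContinuousLinearMap.proj j
  have hf : ∀ x, f x = ∑ j, (a k j : ℝ) * x j := by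
    intro x
    simp [f]
  have hexp := ContinuousLinearMap.toExposed.isExposed (𝕜 := ℝ) (l := f) (A := Ph a b)
  have hcF := hexp.isCompact hc
  have hne : (f.toExposed (Ph a b)).Nonempty := by
    obtain ⟨y, hy, hy2⟩ := hc.exists_isMaxOn ⟨x₀, hx₀⟩ f.continuous.continuousOn
    exact ⟨y, hy, fun z hz => hy2 hz⟩
  obtain ⟨v, hv⟩ := hcF.extremePoints_nonempty hne
  have hvK : v ∈ (Ph a b).extremePoints ℝ :=
    hexp.isExtreme.extremePoints_subset_extremePoints hv
  have hvmax : f x₀ ≤ f v := hv.1.2 x₀ hx₀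
  rw [hf, hf] at hvmax
  have hvpos : (b k : ℝ) < ∑ j, (a k j : ℝ) * v j := lt_of_lt_of_le hpos hvmax
  obtain ⟨g, hg1, hg2⟩ := int_system a b v hvK
  set A : Matrix (Fin N) (Fin N) ℤ := Matrix.of fun i j => a (g i) j with hA
  let w : Fin N → ℤ := A.adjugate.mulVec fun i => b (g i)
  have hw : ∀ j, (A.det : ℝ) * v j = (w j : ℝ) := by
    have h1 : (A.map (Int.cast : ℤ → ℝ)).mulVec v = fun i => (b (g i) : ℝ) := by
      ext i
      rw [hg1 i]
      rfl
    have h2 : (A.map (Int.cast : ℤ → ℝ)).adjugate.mulVec (fun i => (b (g i) : ℝ)) =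
        (A.map (Int.cast : ℤ → ℝ)).det • v := by
      rw [← h1, Matrix.mulVec_mulVec, Matrix.adjugate_mul, Matrix.smul_mulVec, Matrix.one_mulVec]
    have h3 : (A.map (Int.cast : ℤ → ℝ)).det = (A.det : ℝ) := by
      have := RingHom.map_det (Int.castRingHom ℝ) A
      simpa using this.symm
    have h4 : (A.map (Int.cast : ℤ → ℝ)).adjugate = A.adjugate.map (Int.cast : ℤ → ℝ) := by
      have := RingHom.map_adjugate (Int.castRingHom ℝ) A
      simpa using this.symm
    intro j
    have h5 := congrFun h2 j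
    rw [h3, h4] at h5
    simp only [Pi.smul_apply, smul_eq_mul] at h5
    rw [← h5]
    simp only [w, Matrix.mulVec, dotProduct, Matrix.map_apply]
    push_cast
    rfl
  -- the integer
  have hz : (A.det : ℝ) * ((∑ j, (a k j : ℝ) * v j) - b k) =
      (((∑ j, a k j * w j) - A.det * b k : ℤ) : ℝ) := by
    rw [Int.cast_sub, Int.cast_sum, Int.cast_mul, mul_sub, Finset.mul_sum]
    congr 1
    apply Finset.sum_congr rfl
    intro j _
    rw [Int.cast_mul, ← hw j]
    ring
  have hdetR : (A.det : ℝ) ≠ 0 := by exact_mod_cast hg2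
  have hzne : ((∑ j, a k j * w j) - A.det * b k : ℤ) ≠ 0 := by
    intro h0
    rw [h0, Int.cast_zero] at hz
    rcases mul_eq_zero.1 hz with h1 | h1
    · exact hdetR h1
    · linarith
  have hz1 : (1 : ℝ) ≤ |(A.det : ℝ)| * ((∑ j, (a k j : ℝ) * v j) - b k) := by
    have h1 : |(A.det : ℝ) * ((∑ j, (a k j : ℝ) * v j) - b k)| =
        |(A.det : ℝ)| * ((∑ j, (a k j : ℝ) * v j) - b k) := by
      rw [abs_mul, abs_of_pos (a := (∑ j, (a k j : ℝ) * v j) - b k) (by linarith)]
    rw [← h1, hz, ← Int.cast_abs]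
    exact_mod_cast Int.one_le_abs hzne
  have hdet : |(A.det : ℝ)| ≤ (Nat.factorial N : ℝ) * (B : ℝ) ^ N := by
    have h1 := Matrix.det_le (A := A) (abv := AbsoluteValue.abs) (x := B) (fun i j => by
      rw [AbsoluteValue.abs_apply]; exact hB (g i) j)
    rw [AbsoluteValue.abs_apply, Fintype.card_fin, nsmul_eq_mul] at h1
    rw [← Int.cast_abs]
    exact_mod_cast h1
  refine ⟨v, hvK.1, hz1.trans ?_⟩
  apply mul_le_mul_of_nonneg_right hdet
  linarith

/-- A hyperplane is a null set. -/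
theorem hyper {N : ℕ} (c : Fin N → ℝ) (β : ℝ) (hc : ∃ j, c j ≠ 0) :
    volume {x : Fin N → ℝ | ∑ j, c j * x j = β} = 0 := by
  by_cases hne : ({x : Fin N → ℝ | ∑ j, c j * x j = β}).Nonempty
  · obtain ⟨p, hp⟩ := hne
    let f : (Fin N → ℝ) →ₗ[ℝ] ℝ := ∑ j, (c j) • LinearMap.proj j
    have hf : ∀ x, f x = ∑ j, c j * x j := by
      intro x
      simp [f, LinearMap.sum_apply]
    have hset : {x : Fin N → ℝ | ∑ j, c j * x j = β} =
        (AffineSubspace.mk' p (LinearMap.ker f) : Set (Fin N → ℝ)) := by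
      ext x
      rw [SetLike.mem_coe, AffineSubspace.mem_mk', LinearMap.mem_ker, vsub_eq_sub, map_sub, hf, hf,
        Set.mem_ofPred_eq, sub_eq_zero]
      rw [Set.mem_ofPred_eq] at hp
      rw [hp]
    rw [hset]
    apply Measure.addHaar_affineSubspace
    intro htop
    have h1 := congrArg AffineSubspace.direction htop
    rw [AffineSubspace.direction_mk', AffineSubspace.direction_top] at h1
    obtain ⟨j, hj⟩ := hc
    have h2 : (Pi.single j 1 : Fin N → ℝ) ∈ LinearMap.ker f := by rw [h1]; trivial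
    rw [LinearMap.mem_ker, hf] at h2
    apply hj
    simpa [Pi.single_apply] using h2
  · rw [Set.not_nonempty_iff_eq_empty.1 hne, measure_empty]

/-- The general margin lemma. -/
theorem margin {N : ℕ} {ι : Type} [Fintype ι] [Nonempty ι] (a : ι → Fin N → ℤ) (b : ι → ℤ) (B : ℤ)
    (hB : ∀ k j, |a k j| ≤ B) (hB1 : 1 ≤ B) (hc : IsCompact (Ph a b)) (hne : ∀ k, ∃ j, a k j ≠ 0)
    (hvol : 0 < volume (Ph a b)) :
    ∃ x : Fin N → ℝ, ∀ k, 1 ≤ ((Fintype.card ι : ℝ) * ((Nat.factorial N : ℝ) * (B : ℝ) ^ N)) *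
      ((∑ j, (a k j : ℝ) * x j) - b k) := by
  have h1 : ∀ k, ∃ v ∈ Ph a b, 1 ≤ ((Nat.factorial N : ℝ) * (B : ℝ) ^ N) *
      ((∑ j, (a k j : ℝ) * v j) - b k) := by
    intro k
    by_contra hcon
    have h2 : ∀ x ∈ Ph a b, ¬ ((b k : ℝ) < ∑ j, (a k j : ℝ) * x j) := by
      intro x hx hlt
      exact hcon (vertex a b B hB hc k x hx hlt)
    have h3 : Ph a b ⊆ {x : Fin N → ℝ | ∑ j, (a k j : ℝ) * x j = b k} := by
      intro x hx
      exact le_antisymm (not_lt.1 (h2 x hx)) (hx k)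
    have h4 := measure_mono (μ := volume) h3
    obtain ⟨j, hj⟩ := hne k
    rw [hyper (fun j => (a k j : ℝ)) (b k) ⟨j, by exact_mod_cast hj⟩] at h4
    exact absurd hvol (not_lt.2 h4)
  choose v hv1 hv2 using h1
  set n : ℝ := (Fintype.card ι : ℝ) with hn
  have hnpos : 0 < n := by rw [hn]; exact_mod_cast Fintype.card_pos
  set P : ℝ := (Nat.factorial N : ℝ) * (B : ℝ) ^ N with hP
  have hPpos : 0 < P := by
    have h5 : (0 : ℝ) < B := by exact_mod_cast (by omega : 0 < B)
    have h6 : (0 : ℝ) < (Nat.factorial N : ℝ) := by exact_mod_cast Nat.factorial_pos N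
    positivity
  refine ⟨fun j => (∑ k', v k' j) / n, ?_⟩
  intro k
  have h7 : n * ((∑ j, (a k j : ℝ) * ((∑ k', v k' j) / n)) - b k) =
      ∑ k', ((∑ j, (a k j : ℝ) * v k' j) - b k) := by
    rw [Finset.sum_sub_distrib, Finset.sum_const, Finset.card_univ, nsmul_eq_mul, ← hn, mul_sub,
      Finset.mul_sum, Finset.sum_comm]
    congr 1
    apply Finset.sum_congr rfl
    intro j _
    rw [← Finset.mul_sum]
    field_simp
  have h8 : (∑ j, (a k j : ℝ) * v k j) - b k ≤ ∑ k', ((∑ j, (a k j : ℝ) * v k' j) - b k) := by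
    apply Finset.single_le_sum (f := fun k' => (∑ j, (a k j : ℝ) * v k' j) - b k) _
      (Finset.mem_univ k)
    intro k' _
    have := hv1 k' k
    linarith
  calc (1 : ℝ) ≤ P * ((∑ j, (a k j : ℝ) * v k j) - b k) := hv2 k
    _ ≤ P * ∑ k', ((∑ j, (a k j : ℝ) * v k' j) - b k) :=
        mul_le_mul_of_nonneg_left h8 hPpos.le
    _ = _ := by rw [← h7]; ring

theorem int : IntStmt := by
  intro N d β D C e hN hD hDβ hC he hCb heb hCne hvol
  choose c hc using hC
  choose e' he' using he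
  have hD0 : (0 : ℝ) < D := by exact_mod_cast (by omega : 0 < D)
  have hDβR : (D : ℝ) ≤ 2 ^ β := by exact_mod_cast hDβ
  let a : Fin N ⊕ Fin N ⊕ Fin d → Fin N → ℤ := fun k => match k with
    | .inl j => Pi.single j 1
    | .inr (.inl j) => Pi.single j (-1)
    | .inr (.inr i) => fun j => c i j
  let b : Fin N ⊕ Fin N ⊕ Fin d → ℤ := fun k => match k with
    | .inl _ => 0
    | .inr (.inl _) => -1
    | .inr (.inr i) => e' i
  have s1 : ∀ (j : Fin N) (x : Fin N → ℝ), ∑ j', (a (.inl j) j' : ℝ) * x j' = x j := by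
    intro j x
    rw [Finset.sum_eq_single j]
    · simp [a]
    · intro j' _ hj'
      simp [a, Pi.single_eq_of_ne hj']
    · intro h
      exact absurd (Finset.mem_univ j) h
  have s2 : ∀ (j : Fin N) (x : Fin N → ℝ), ∑ j', (a (.inr (.inl j)) j' : ℝ) * x j' = - x j := by
    intro j x
    rw [Finset.sum_eq_single j]
    · simp [a]
    · intro j' _ hj'
      simp [a, Pi.single_eq_of_ne hj']
    · intro h
      exact absurd (Finset.mem_univ j) h
  have s3 : ∀ (i : Fin d) (x : Fin N → ℝ), ∑ j', (a (.inr (.inr i)) j' : ℝ) * x j' =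
      D * ∑ j, C j i * x j := by
    intro i x
    rw [Finset.mul_sum]
    apply Finset.sum_congr rfl
    intro j _
    show (c i j : ℝ) * x j = _
    rw [← hc i j]
    ring
  have hPh : Ph a b = {x : Fin N → ℝ | (∀ j, 0 ≤ x j ∧ x j ≤ 1) ∧
      ∀ i, e i ≤ ∑ j, C j i * x j} := by
    ext x
    constructor
    · intro h
      refine ⟨fun j => ⟨?_, ?_⟩, fun i => ?_⟩
      · have := h (.inl j)
        rw [s1] at this
        simpa [b] using this
      · have := h (.inr (.inl j))
        rw [s2] at this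
        simp only [b, Int.cast_neg, Int.cast_one] at this
        linarith
      · have := h (.inr (.inr i))
        rw [s3] at this
        have h2 : (D : ℝ) * e i ≤ D * ∑ j, C j i * x j := by rw [he' i]; exact this
        exact le_of_mul_le_mul_left h2 hD0
    · rintro ⟨h1, h2⟩ k
      rcases k with j | j | i
      · rw [s1]
        simpa [b] using (h1 j).1
      · rw [s2]
        simp only [b, Int.cast_neg, Int.cast_one]
        linarith [(h1 j).2]
      · rw [s3]
        show (e' i : ℝ) ≤ _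
        rw [← he' i]
        exact mul_le_mul_of_nonneg_left (h2 i) hD0.le
  have hcomp : IsCompact (Ph a b) := by
    apply Metric.isCompact_of_isClosed_isBounded
    · have : Ph a b = ⋂ k, {x : Fin N → ℝ | (b k : ℝ) ≤ ∑ j, (a k j : ℝ) * x j} := by
        ext x
        simp [Ph]
      rw [this]
      apply isClosed_iInter
      intro k
      exact isClosed_le continuous_const (by fun_prop)
    · rw [hPh]
      apply (Metric.isBounded_Icc (0 : Fin N → ℝ) 1).subset
      intro x hx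
      exact ⟨fun j => (hx.1 j).1, fun j => (hx.1 j).2⟩
  have hBpow : (1 : ℤ) ≤ 2 ^ (2 * β) := one_le_pow₀ (by norm_num)
  have haB : ∀ k j, |a k j| ≤ 2 ^ (2 * β) := by
    intro k j
    rcases k with j' | j' | i
    · by_cases h : j = j'
      · subst h
        simpa [a] using hBpow
      · simp only [a, Pi.single_eq_of_ne h, abs_zero]
        omega
    · by_cases h : j = j'
      · subst h
        simpa [a] using hBpow
      · simp only [a, Pi.single_eq_of_ne h, abs_zero]
        omega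
    · show |c i j| ≤ _
      have h1 : |(c i j : ℝ)| ≤ 2 ^ (2 * β) := by
        rw [← hc i j, abs_mul, abs_of_pos hD0, two_mul, pow_add]
        exact mul_le_mul hDβR (hCb i j) (abs_nonneg _) (by positivity)
      exact_mod_cast h1
  have hane : ∀ k, ∃ j, a k j ≠ 0 := by
    intro k
    rcases k with j' | j' | i
    · exact ⟨j', by simp [a]⟩
    · exact ⟨j', by simp [a]⟩
    · obtain ⟨j, hj⟩ := hCne i
      refine ⟨j, ?_⟩
      show c i j ≠ 0
      intro h0
      have := hc i j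
      rw [h0, Int.cast_zero] at this
      rcases mul_eq_zero.1 this with h1 | h1
      · exact hD0.ne' h1
      · exact hj h1
  have : Nonempty (Fin N ⊕ Fin N ⊕ Fin d) := ⟨.inl ⟨0, by omega⟩⟩
  obtain ⟨x, hx⟩ := margin a b (2 ^ (2 * β)) haB hBpow hcomp hane (by rw [hPh]; exact hvol)
  have hcard : (Fintype.card (Fin N ⊕ Fin N ⊕ Fin d) : ℝ) = ((2 * N + d : ℕ) : ℝ) := by
    rw [Fintype.card_sum, Fintype.card_sum, Fintype.card_fin, Fintype.card_fin]
    congr 1
    omega
  set Q : ℝ := ((2 * N + d : ℕ) : ℝ) with hQ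
  have hQpos : 0 < Q := by rw [hQ]; exact_mod_cast (by omega : 0 < 2 * N + d)
  have hcast : (((2 ^ (2 * β) : ℤ)) : ℝ) = (2 : ℝ) ^ (2 * β) := by
    rw [Int.cast_pow]
    rfl
  rw [hcard, hcast] at hx
  set P : ℝ := (Nat.factorial N : ℝ) * ((2 : ℝ) ^ (2 * β)) ^ N with hP
  have hfac : (Nat.factorial N : ℝ) ≤ 2 ^ (N ^ 2) := by
    have h1 : Nat.factorial N ≤ 2 ^ (N ^ 2) := by
      calc Nat.factorial N ≤ N ^ N := Nat.factorial_le_pow N
        _ ≤ (2 ^ N) ^ N := Nat.pow_le_pow_left (Nat.lt_two_pow_self).le N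
        _ = 2 ^ (N ^ 2) := by rw [← pow_mul, sq]
    exact_mod_cast h1
  have hPle : P ≤ 2 ^ (N ^ 2 + 2 * β * N) := by
    rw [hP, pow_add, pow_mul _ (2 * β) N]
    exact mul_le_mul_of_nonneg_right hfac (by positivity)
  have hPpos : 0 < P := by
    have h6 : (0 : ℝ) < (Nat.factorial N : ℝ) := by exact_mod_cast Nat.factorial_pos N
    positivity
  have hsig : sig N d β = 1 / (Q * 2 ^ (N ^ 2 + 2 * β * N + β)) := rfl
  have h2β : (1 : ℝ) ≤ 2 ^ β := one_le_pow₀ (by norm_num)
  -- the two estimates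
  have est : ∀ y : ℝ, 1 ≤ Q * P * y → sig N d β * D ≤ y := by
    intro y hy
    have hy0 : 0 < y := by
      by_contra h
      have := mul_nonpos_of_nonneg_of_nonpos (mul_pos hQpos hPpos).le (not_lt.1 h)
      linarith
    rw [hsig, div_mul_eq_mul_div, one_mul, div_le_iff₀ (by positivity)]
    have h1 : Q * P * y ≤ Q * 2 ^ (N ^ 2 + 2 * β * N) * y :=
      mul_le_mul_of_nonneg_right (mul_le_mul_of_nonneg_left hPle hQpos.le) hy0.le
    have h2 : (D : ℝ) * 1 ≤ 2 ^ β * (Q * 2 ^ (N ^ 2 + 2 * β * N) * y) :=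
      mul_le_mul hDβR (hy.trans h1) (by norm_num) (by positivity)
    rw [pow_add]
    calc (D : ℝ) = D * 1 := (mul_one _).symm
      _ ≤ _ := h2
      _ = _ := by ring
  have hsig0 : 0 < sig N d β := by rw [hsig]; positivity
  have hD1 : (1 : ℝ) ≤ D := by exact_mod_cast hD
  have hsD : sig N d β ≤ sig N d β * D := le_mul_of_one_le_right hsig0.le hD1
  refine ⟨x, fun j => ⟨?_, ?_⟩, fun i => ?_⟩
  · have h1 := est _ (hx (.inl j))
    rw [s1] at h1
    simp only [b, Int.cast_zero, sub_zero] at h1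
    linarith
  · have h1 := est _ (hx (.inr (.inl j)))
    rw [s2] at h1
    simp only [b, Int.cast_neg, Int.cast_one] at h1
    linarith
  · have h1 := est _ (hx (.inr (.inr i)))
    rw [s3] at h1
    have h2 : (b (.inr (.inr i)) : ℝ) = D * e i := (he' i).symm
    rw [h2, ← mul_sub, mul_comm (sig N d β)] at h1
    exact le_of_mul_le_mul_left h1 hD0

end Pool.Agent.Helper7.FR
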